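import Pool.Agent.Y156.W.Main

/-!
# `Σ`-modified Iwasawa cohomology: reduction to `ℤ_p(1)` over number fields of degree prime to `p`

The conjecture that the second `Σ`-modified Iwasawa cohomology groups of all `p`-adic representations over
all number fields are torsion modules with vanishing `μ`-invariants, for all abelian extensions `L` of `K`
and all odd `p`, is equivalent to its case of the trivial data `K = L`, `T = ℤ_p(1)`, `Σ = ∅`, where moreover
the degree of `K` over `ℚ` is not divisible by `p` (or, for each choice of a number field `M p`, the field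
`K` contains `M p` and its degree over `M p` is not divisible by `p`).

The vanishing of the `μ`-invariants is given by its known properties (`IsMu`, `IsLim`).
-/

set_option autoImplicit false

namespace Pool.Agent.Results.MP_519cc8_nt.DegreePrimeToP

open Pool.Agent.Y156.W

/-- The reduction to the trivial data over the number fields of degree prime to `p`. -/
theorem result {Ω : Type} [Field Ω] [Algebra ℚ Ω] [IsAlgClosure ℚ Ω]
    (mu0 : ℕ → IntermediateField ℚ Ω → Prop)
    (hmu : ∀ p : ℕ, p.Prime → p ≠ 2 → IsMu p (fun _ => True) (fun _ => True) (mu0 p))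
    (D : ℕ → Type) (good : ∀ p, D p → Prop) (resField : ∀ p, D p → IntermediateField ℚ Ω)
    (triv : ∀ p, IntermediateField ℚ Ω → D p)
    (hlim : ∀ p : ℕ, p.Prime → p ≠ 2 → IsLim (mu0 p) (good p) (resField p) (triv p))
    (M : ℕ → IntermediateField ℚ Ω) (hM : ∀ p, FiniteDimensional ℚ (M p)) :
    (∀ p : ℕ, p.Prime → p ≠ 2 → ∀ d : D p, good p d) ↔
      ∀ p : ℕ, p.Prime → p ≠ 2 → ∀ K : IntermediateField ℚ Ω, PrimeTo p (M p) K →
        good p (triv p K) := by
  refine ⟨fun h p hp hp2 K _ => h p hp hp2 _, fun h p hp hp2 d => ?_⟩
  refine (hlim p hp hp2).of_mu d ((reduction_all hp (hmu p hp hp2) (hM p) trivial).2 (fun K hK => ?_) _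
    ((hlim p hp hp2).finite d))
  exact ((hlim p hp hp2).triv_iff K hK.1).1 (h p hp hp2 K hK)

end Pool.Agent.Results.MP_519cc8_nt.DegreePrimeToP
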