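import Pool.Agent.Y194.MU.ST

/-!
# The torsion of `H²(O_{F,S}, T)` in pro-`p` towers

Let `T ≅ ℤ_p^d` be a representation of `Gal(Ω/K)` unramified outside `S` (a finite set of places containing those above `p`
and `∞`), and let `K ⊆ E_0 ⊆ E_1 ⊆ …` be a tower of fields with `E_{n+1}/E_n` Galois of `p`-power degree and unramified
outside `S`: the layers of the cyclotomic `ℤ_p`-extension, of any `p`-adic Lie extension, or of any other pro-`p`
extension unramified outside `S`. The number of the crossed homomorphisms `Gal(K_S/E_n) → T/p^k` is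

  `p^{a_n k + ∑_i min(k, v_i(n))} = |T/p^k| |H¹(O_{E_n,S}, T/p^k)| / |H⁰(O_{E_n,S}, T/p^k)|`,

where `a_n + #{i : v_i(n) ≥ k}` changes only by a bounded amount if it is replaced by the same expression for the `ℤ_p`-rank
of `H¹(O_{E_n,S}, T)` and the exponents `v` of the summands `ℤ/p^v` of the torsion group of `H²(O_{E_n,S}, T)` (if
`H²` is finite; in general its rank is contained in `a_n`).

Theorem.

1. For all `j` the weights `(a_n (1 - p^{-j}) + ∑_i (1 - p^{-min(j, v_i(n))})) / [E_n : K]` do not increase with `n`, nor does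
   `(a_n + ∑_i (1 - p^{-v_i(n)})) / [E_n : K]`.
2. For all `j ≥ 1` the numbers `(a_n + #{i : v_i(n) ≥ j}) / [E_n : K]` and `#{i : v_i(n) = j} / [E_n : K]` converge.

For the cyclotomic tower and a `T` for which the weak Leopoldt conjecture holds, the second limit is `1 / [E_0 : K]` times the
number of the summands `Λ/p^j` of `H²_Iw(O_{E_0,S}, T)`, as follows from the structure theory of `Λ`-modules. So the limits
generalise the `μ`-types of Q1 (which asserts that they vanish in the cyclotomic case) to arbitrary pro-`p` towers, for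
which no structure theory is available. For `T = ℤ_p(i)`, `i ≥ 2`, the `v_i(n)` are, up to a bounded number, the
exponents of the finite groups `H²(O_{E_n,S}, ℤ_p(i))`, i.e. of the `p`-part of `K_{2i-2}(O_{E_n,S})`.
-/

set_option autoImplicit false

open IsDedekindDomain NumberField Matrix Filter Topology Pool.Agent.Y194.TS Pool.Agent.Y194.MU

namespace Pool.Agent.Results.MP_519cc8_nt.DistributionInTowers

section

variable {K Ω : Type} [Field K] [Field Ω] [Algebra K Ω] {p d : ℕ} [Fact p.Prime]

/-- a tower of fields `E_n`, `E_{n+1}/E_n` Galois of `p`-power degree and unramified outside `S` -/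
structure Tower (p : ℕ) (S : Set (HeightOneSpectrum (𝓞 K)))
    (E : ℕ → IntermediateField K Ω) : Prop where
  finite : ∀ n, FiniteDimensional K (E n)
  le : ∀ n, E n ≤ E (n + 1)
  galois : ∀ n, ((E (n + 1)).fixingSubgroup.subgroupOf (E n).fixingSubgroup).Normal
  degree : ∀ n, ∃ m, Module.finrank K (E (n + 1)) = p ^ m * Module.finrank K (E n)
  unram : ∀ n, ∀ σ ∈ Inertia Ω S, σ ∈ (E n).fixingSubgroup → σ ∈ (E (n + 1)).fixingSubgroup

/-- a continuous representation on `ℤ_p^d` which is trivial on the inertia groups outside `S` -/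
structure Rep (S : Set (HeightOneSpectrum (𝓞 K))) (ρ : (Ω ≃ₐ[K] Ω) →* GL (Fin d) ℤ_[p]) :
    Prop where
  cont : Continuous ρ
  unram : ∀ σ ∈ Inertia Ω S, ρ σ = 1

/-- the locally constant crossed homomorphisms `Gal(Ω/F) → (ℤ/p^k)^d` that kill the inertia groups outside `S` are
`p^{a k + ∑ min(k, v_i)}` in number, for all `k` -/
def HasExponents (S : Set (HeightOneSpectrum (𝓞 K))) (ρ : (Ω ≃ₐ[K] Ω) →* GL (Fin d) ℤ_[p])
    (F : IntermediateField K Ω) (a : ℕ) (v : Multiset ℕ) : Prop :=
  ∀ k, Nat.card (Coc S ρ F.fixingSubgroup k) = p ^ (a * k + (v.map (fun i => min k i)).sum)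

end

/-- monotonicity of the weights, and convergence of the distribution of the exponents -/
theorem result {K Ω : Type} [Field K] [NumberField K] [Field Ω] [Algebra K Ω] [IsAlgClosure K Ω]
    {p d : ℕ} [Fact p.Prime] {S : Set (HeightOneSpectrum (𝓞 K))}
    {ρ : (Ω ≃ₐ[K] Ω) →* GL (Fin d) ℤ_[p]} (hρ : Rep S ρ)
    {E : ℕ → IntermediateField K Ω} (hE : Tower p S E) {a : ℕ → ℕ} {v : ℕ → Multiset ℕ}
    (hv : ∀ n, HasExponents S ρ (E n) (a n) (v n)) :
    (∀ j, Antitone fun n => trunc p j (a n) (v n) / Module.finrank K (E n)) ∧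
    (Antitone fun n => full p (a n) (v n) / Module.finrank K (E n)) ∧
    ∀ j, 1 ≤ j →
      (∃ l : ℝ, Tendsto (fun n => ((a n : ℝ) + (Multiset.countP (fun i => j ≤ i) (v n) : ℕ)) /
        Module.finrank K (E n)) atTop (𝓝 l)) ∧
      ∃ l : ℝ, Tendsto (fun n => (Multiset.count j (v n) : ℝ) / Module.finrank K (E n))
        atTop (𝓝 l) := by
  have hgal : IsGalois K Ω := IsAlgClosure.isGalois K Ω
  have hp2 : (2 : ℝ) ≤ p := by exact_mod_cast (Fact.out : p.Prime).two_le
  have hlog : 0 < Real.log p := Real.log_pos (by linarith)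
  have hinv : (p : ℝ)⁻¹ < 1 := inv_lt_one_of_one_lt₀ (by linarith)
  have hpos : ∀ n, (0 : ℝ) < Module.finrank K (E n) := fun n => by
    have := hE.finite n
    exact_mod_cast Module.finrank_pos
  have step : ∀ n, ∃ m, (Module.finrank K (E (n + 1)) : ℝ) = (p : ℝ) ^ m *
      Module.finrank K (E n) ∧ (∀ j, trunc p j (a (n + 1)) (v (n + 1)) ≤
        (p : ℝ) ^ m * trunc p j (a n) (v n)) ∧
      full p (a (n + 1)) (v (n + 1)) ≤ (p : ℝ) ^ m * full p (a n) (v n) := by
    intro n
    obtain ⟨m, hm⟩ := hE.degree n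
    have i0 := hE.finite n
    have i1 := hE.finite (n + 1)
    have hle : (E (n + 1)).fixingSubgroup ≤ (E n).fixingSubgroup :=
      IntermediateField.fixingSubgroup_antitone (hE.le n)
    have hidx : (E (n + 1)).fixingSubgroup.relIndex (E n).fixingSubgroup = p ^ m := by
      have h1 := Subgroup.relIndex_mul_index hle
      rw [← IntermediateField.finrank_eq_fixingSubgroup_index,
        ← IntermediateField.finrank_eq_fixingSubgroup_index, hm] at h1
      exact Nat.eq_of_mul_eq_mul_right (Module.finrank_pos) h1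
    have key : ∀ j, trunc p j (a (n + 1)) (v (n + 1)) ≤ (p : ℝ) ^ m * trunc p j (a n) (v n) := by
      intro j
      have h := level_ineq S ρ hρ.cont hρ.unram hle (hE.galois n)
        (E (n + 1)).fixingSubgroup_isOpen hidx (hE.unram n) (fun k => by
          rw [hv (n + 1) k]
          exact (pow_pos (Fact.out : p.Prime).pos _).ne') j
      have e1 : (fun k => Nat.card (Coc S ρ (E n).fixingSubgroup k)) = typ p (a n) (v n) :=
        funext fun k => hv n k
      have e2 : (fun k => Nat.card (Coc S ρ (E (n + 1)).fixingSubgroup k)) =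
          typ p (a (n + 1)) (v (n + 1)) := funext fun k => hv (n + 1) k
      rw [e1, e2] at h
      have h2 := mul_le_mul_of_nonneg_left h (show 0 ≤ 1 - (p : ℝ)⁻¹ by linarith)
      have h3 : Real.log p * trunc p j (a (n + 1)) (v (n + 1)) ≤
          Real.log p * ((p : ℝ) ^ m * trunc p j (a n) (v n)) := by
        calc _ = (1 - (p : ℝ)⁻¹) * DD p (typ p (a (n + 1)) (v (n + 1))) j := (DD_typ _ _ j).symm
          _ ≤ _ := h2
          _ = (p : ℝ) ^ m * ((1 - (p : ℝ)⁻¹) * DD p (typ p (a n) (v n)) j) := by ring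
          _ = _ := by rw [DD_typ]; ring
      exact le_of_mul_le_mul_left h3 hlog
    refine ⟨m, by exact_mod_cast hm, key, ?_⟩
    exact le_of_tendsto_of_tendsto' (trunc_lim (p := p) _ _)
      ((trunc_lim (p := p) _ _).const_mul ((p : ℝ) ^ m)) key
  have hj : ∀ j, Antitone fun n => trunc p j (a n) (v n) / Module.finrank K (E n) := by
    intro j
    refine antitone_nat_of_succ_le fun n => ?_
    obtain ⟨m, h1, h2, -⟩ := step n
    rw [div_le_div_iff₀ (hpos (n + 1)) (hpos n), h1]
    calc trunc p j (a (n + 1)) (v (n + 1)) * Module.finrank K (E n)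
        ≤ ((p : ℝ) ^ m * trunc p j (a n) (v n)) * Module.finrank K (E n) :=
          mul_le_mul_of_nonneg_right (h2 j) (hpos n).le
      _ = _ := by ring
  refine ⟨hj, antitone_nat_of_succ_le fun n => ?_, fun j hj1 => ?_⟩
  · obtain ⟨m, h1, -, h2⟩ := step n
    rw [div_le_div_iff₀ (hpos (n + 1)) (hpos n), h1]
    calc full p (a (n + 1)) (v (n + 1)) * Module.finrank K (E n)
        ≤ ((p : ℝ) ^ m * full p (a n) (v n)) * Module.finrank K (E n) :=
          mul_le_mul_of_nonneg_right h2 (hpos n).le
      _ = _ := by ring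
  · obtain ⟨j, rfl⟩ := Nat.exists_eq_add_of_le' hj1
    refine seq_conv2 (p := p) (fun j => ⟨_, tendsto_atTop_ciInf (hj j) ⟨0, ?_⟩⟩) j
    rintro _ ⟨n, rfl⟩
    exact div_nonneg (trunc_nonneg _ _ _) (Nat.cast_nonneg _)

end Pool.Agent.Results.MP_519cc8_nt.DistributionInTowers
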