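import Pool.Agent.Y194.MU.Fld

/-!
# The `μ`-types of Iwasawa cohomology in Galois extensions of `p`-power degree

Let `K` be a number field, `Ω` an algebraic closure, `p` an odd prime, `T` a free `ℤ_p`-module of rank `d` with a
continuous action `ρ` of `Gal(Ω/K)`, `S` a finite set of primes containing the primes above `p` and the primes at which
`T` is ramified, and let `K_∞ = ⋃ K_n` be the cyclotomic `ℤ_p`-extension (or any other tower of finite
extensions of `K`, e.g. a `p`-adic Lie extension). For a finite extension `L` of `K` let `L_n = L K_n`, and let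
`Z¹(L_n; k)` be the group of the crossed homomorphisms `G_S(L_n) → T/p^k`. If `H¹(G_S(L_∞), T ⊗ ℚ_p/ℤ_p)^∨` is
pseudo-isomorphic to `Λ^a ⊕ ⨁_i Λ/p^{m_i} ⊕ ⨁_j Λ/f_j`, then

  `log_p |Z¹(L_n; k)| / p^n → a k + ∑_i min(k, m_i)`   for all `k`.            (∗)

By Jannsen's spectral sequence the `Λ/p^{m_i}` also are the summands of this kind of the torsion submodule of
`H²_Iw(O_{L,S}, T)`, and `a = e + h`, where `h` is the rank of `H²_Iw(O_{L,S}, T)` and `e` is given by the formula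
for the Euler characteristic, `e(L') = [L' : L] e(L)`. The same holds for the `Σ`-modified modules
`H²_{Σ,Iw}(O_{L,S}, T)`. So the assertion of Q1 for `L` is: `h = 0`, and there are no `m_i`.

Theorem. Let `L'/L` be a Galois extension of `p`-power degree, unramified outside `S`, linearly disjoint from the tower,
`(h; m_i)` and `(h'; m'_i)` the ranks and `μ`-types of `H²_Iw` for `L` and `L'`. Then for all `j`

  `h' (1 - p^{-j}) + ∑_i (1 - p^{-min(j, m'_i)}) ≤ [L' : L] (h (1 - p^{-j}) + ∑_i (1 - p^{-min(j, m_i)}))`,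

and `h' + ∑_i (1 - p^{-m'_i}) ≤ [L' : L] (h + ∑_i (1 - p^{-m_i}))`.

For `j = 1` these are the classical inequalities `h' + g' ≤ [L' : L] (h + g)` for the `𝔽_p[[Γ]]`-ranks, `g` the number of
the `m_i`, which give the permanence of `μ = 0` in `p`-extensions (Iwasawa, Hachimori-Matsuno, Lim). If there are `m_i`, the
inequalities for `j > 1` are sharper: a summand `Λ/p^m` for `L` contributes to the bound for the rank `h'` of
`H²_Iw` for `L'` only with `1 - p^{-m}`, and it bounds the number of the summands `Λ/p^{m'}` with large `m'`.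

Proof. Weighted Schreier inequalities: the group of the functions `c : Gal(Ω/L_n) → A`, `A = T ⊗ ℚ_p/ℤ_p`, with
`c(σ τ) = c(σ) + σ c(τ)` for all `σ` in `Gal(Ω/L'_n)` is `Z¹(L'_n) × A^{[L' : L] - 1}`, and `Gal(L'/L)` acts on it with
invariants `Z¹(L_n)`. For a discrete module `H` and `s_k = log_p |H[p^{k+1}]| - log_p |H[p^k]|` the weighted sums
`∑_{k < j} p^{-k} s_k` grow at most by the factor `[L' : L]` from the invariants to `H`. Divide by `p^n`.
-/

set_option autoImplicit false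

open IsDedekindDomain NumberField Pool.Agent.Y194.TS Pool.Agent.Y194.MU

namespace Pool.Agent.Results.MP_519cc8_nt.TypesInPExtensions

section

variable {K Ω : Type} [Field K] [Field Ω] [Algebra K Ω] {p d : ℕ} [Fact p.Prime]

/-- a continuous representation unramified outside `S` -/
structure Rep (S : Set (HeightOneSpectrum (𝓞 K)))
    (ρ : (Ω ≃ₐ[K] Ω) →* Matrix.GeneralLinearGroup (Fin d) ℤ_[p]) : Prop where
  cont : Continuous ρ
  unram : ∀ σ ∈ Inertia Ω S, ρ σ = 1

/-- `L'/L` is Galois, unramified outside `S`, and `[L' E_n : L E_n] = p ^ m` for all the fields `E_n` -/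
structure PExt (p m : ℕ) (S : Set (HeightOneSpectrum (𝓞 K))) (E : ℕ → IntermediateField K Ω)
    (L L' : IntermediateField K Ω) : Prop where
  le : L ≤ L'
  galois : (L'.fixingSubgroup.subgroupOf L.fixingSubgroup).Normal
  unram : ∀ σ ∈ Inertia Ω S, σ ∈ L.fixingSubgroup → σ ∈ L'.fixingSubgroup
  finite : ∀ n, FiniteDimensional K (E n)
  degree : ∀ n, Module.finrank K (L' ⊔ E n : IntermediateField K Ω) =
    p ^ m * Module.finrank K (L ⊔ E n : IntermediateField K Ω)

/-- the crossed homomorphisms on `Gal(Ω/L E_n)` with values in `(ℤ/p^k)^d` killing the inertia groups outside `S` are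
finite in number, `N(n, k)`, and `log_p N(n, k) / [E_n : K]` converges to `a k + ∑ min(k, v_i)` for all `k` -/
def TypeAt (S : Set (HeightOneSpectrum (𝓞 K)))
    (ρ : (Ω ≃ₐ[K] Ω) →* Matrix.GeneralLinearGroup (Fin d) ℤ_[p]) (E : ℕ → IntermediateField K Ω)
    (L : IntermediateField K Ω) (a : ℕ) (v : Multiset ℕ) : Prop :=
  (∀ n k, Finite (Coc S ρ (L ⊔ E n).fixingSubgroup k)) ∧
    Density p (fun n => Module.finrank K (E n))
      (fun n k => Nat.card (Coc S ρ (L ⊔ E n).fixingSubgroup k)) a v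

end

/-- `∑ (1 - p^{-min(j, v_i)})` -/
noncomputable def W (p j : ℕ) (v : Multiset ℕ) : ℝ :=
  (v.map (fun i => 1 - ((p : ℝ)⁻¹) ^ min j i)).sum

/-- `∑ (1 - p^{-v_i})` -/
noncomputable def W' (p : ℕ) (v : Multiset ℕ) : ℝ := (v.map (fun i => 1 - ((p : ℝ)⁻¹) ^ i)).sum

theorem result {K Ω : Type} [Field K] [NumberField K] [Field Ω] [Algebra K Ω] [IsAlgClosure K Ω]
    {p d m : ℕ} [Fact p.Prime] {S : Set (HeightOneSpectrum (𝓞 K))}
    {ρ : (Ω ≃ₐ[K] Ω) →* Matrix.GeneralLinearGroup (Fin d) ℤ_[p]} (hρ : Rep S ρ)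
    {L L' : IntermediateField K Ω} [FiniteDimensional K L'] {E : ℕ → IntermediateField K Ω}
    (hL : PExt p m S E L L') {a a' : ℕ} {v v' : Multiset ℕ}
    (hv : TypeAt S ρ E L a v) (hv' : TypeAt S ρ E L' a' v') :
    (∀ j, a' * (1 - ((p : ℝ)⁻¹) ^ j) + W p j v' ≤
      (p : ℝ) ^ m * (a * (1 - ((p : ℝ)⁻¹) ^ j) + W p j v)) ∧
    a' + W' p v' ≤ (p : ℝ) ^ m * (a + W' p v) ∧
    ∀ e h h' : ℤ, (a : ℤ) = e + h → (a' : ℤ) = p ^ m * e + h' →
      (∀ j, h' * (1 - ((p : ℝ)⁻¹) ^ j) + W p j v' ≤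
        (p : ℝ) ^ m * (h * (1 - ((p : ℝ)⁻¹) ^ j) + W p j v)) ∧
      h' + W' p v' ≤ (p : ℝ) ^ m * (h + W' p v) := by
  have hgal : IsGalois K Ω := IsAlgClosure.isGalois K Ω
  have hne : ∀ n k, Nat.card (Coc S ρ (L' ⊔ E n).fixingSubgroup k) ≠ 0 := by
    intro n k
    have h1 := hv'.1 n k
    have h2 : Nonempty (Coc S ρ (L' ⊔ E n).fixingSubgroup k) :=
      ⟨⟨0, fun x y => by
        show (0 : Fin d → ZMod (p ^ k)) = 0 + Matrix.mulVec _ 0
        rw [Matrix.mulVec_zero, add_zero], IsLocallyConstant.const 0, fun _ _ => rfl⟩⟩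
    exact Nat.card_pos.ne'
  have h1 := pair_main S ρ hρ.cont hρ.unram hL.le hL.galois hL.unram E hL.finite hL.degree hne
    hv.2 hv'.2
  refine ⟨h1.1, h1.2, fun e h h' ha ha' => ?_⟩
  have h4 : (a : ℝ) = e + h := by exact_mod_cast ha
  have h5 : (a' : ℝ) = (p : ℝ) ^ m * e + h' := by exact_mod_cast ha'
  refine ⟨fun j => ?_, ?_⟩
  · have h6 : a' * (1 - ((p : ℝ)⁻¹) ^ j) + W p j v' ≤
        (p : ℝ) ^ m * (a * (1 - ((p : ℝ)⁻¹) ^ j) + W p j v) := h1.1 j
    rw [h4, h5] at h6
    linarith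
  · have h6 : a' + W' p v' ≤ (p : ℝ) ^ m * (a + W' p v) := h1.2
    rw [h4, h5] at h6
    linarith

end Pool.Agent.Results.MP_519cc8_nt.TypesInPExtensions
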